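import Pool.Agent.X170.Core.Calc

/-!
# The core of a domain can change on a smaller domain containing it
-/

set_option autoImplicit false

open Set Topology Filter Complex

namespace Pool.Agent.Results.MP_902c37_an.CoreNotLocal

open Pool.Agent.X170.Core

/-- **Negative answer.** There are domains `ω ⊆ Ω` in `ℂ²` with `𝔠(Ω) ⊆ ω` and `𝔠(ω) ≠ 𝔠(Ω)`. In fact
`𝔠(Ω)` is the disc `{(z, 0) : |z| < 1}`, while `ω` is bounded and `𝔠(ω)` is empty. -/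
theorem result : ∃ Ω ω : Set (ℂ × ℂ), IsOpen Ω ∧ IsConnected Ω ∧ IsOpen ω ∧ IsConnected ω ∧
    Bornology.IsBounded ω ∧ ω ⊆ Ω ∧ core Ω = {p | ‖p.1‖ < 1 ∧ p.2 = 0} ∧ core Ω ⊆ ω ∧
    core ω = ∅ ∧ core ω ≠ core Ω := by
  set Ω : Set (ℂ × ℂ) := {p | ‖p.2‖ ^ 2 * (1 + ‖p.1‖ ^ 2) < 1 ∧ ¬ (p.2 = 0 ∧ 1 ≤ ‖p.1‖)} with hΩ
  set ω : Set (ℂ × ℂ) := {p | ‖p.2‖ ^ 2 * (1 + ‖p.1‖ ^ 2) < 1 ∧ ‖p.1‖ < 1} with hω
  have hc1 : Continuous fun p : ℂ × ℂ => ‖p.2‖ ^ 2 * (1 + ‖p.1‖ ^ 2) := contDiff_prod.continuous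
  have hΩo : IsOpen Ω := by
    have h1 : IsClosed {p : ℂ × ℂ | p.2 = 0 ∧ 1 ≤ ‖p.1‖} :=
      (isClosed_eq continuous_snd continuous_const).inter
        (isClosed_le continuous_const continuous_fst.norm)
    exact (isOpen_lt hc1 continuous_const).inter h1.isOpen_compl
  have hωo : IsOpen ω :=
    (isOpen_lt hc1 continuous_const).inter (isOpen_lt continuous_fst.norm continuous_const)
  have hsub : ω ⊆ Ω := fun p hp => ⟨hp.1, fun h => absurd h.2 (not_le.2 hp.2)⟩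
  have ht : ∀ (t : ℝ) (z : ℂ), 0 ≤ t → t ≤ 1 → ‖(t : ℂ) * z‖ ≤ ‖z‖ := by
    intro t z h0 h1
    rw [norm_mul, Complex.norm_real, Real.norm_of_nonneg h0]
    exact mul_le_of_le_one_left (norm_nonneg _) h1
  have hmono1 : ∀ (p : ℂ × ℂ) (t : ℝ), 0 ≤ t → t ≤ 1 → ‖p.2‖ ^ 2 * (1 + ‖p.1‖ ^ 2) < 1 →
      ‖p.2‖ ^ 2 * (1 + ‖(t : ℂ) * p.1‖ ^ 2) < 1 := by
    intro p t h0 h1 hp
    refine lt_of_le_of_lt ?_ hp
    have := pow_le_pow_left₀ (norm_nonneg _) (ht t p.1 h0 h1) 2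
    gcongr
  have hmono2 : ∀ (p : ℂ × ℂ) (t : ℝ), 0 ≤ t → t ≤ 1 → ‖p.2‖ ^ 2 * (1 + ‖p.1‖ ^ 2) < 1 →
      ‖(t : ℂ) * p.2‖ ^ 2 * (1 + ‖(0 : ℂ)‖ ^ 2) < 1 := by
    intro p t h0 h1 hp
    refine lt_of_le_of_lt ?_ hp
    have h3 := pow_le_pow_left₀ (norm_nonneg _) (ht t p.2 h0 h1) 2
    have h4 : 0 ≤ ‖p.2‖ ^ 2 * ‖p.1‖ ^ 2 := by positivity
    rw [norm_zero]
    nlinarith
  have hΩc : IsConnected Ω := by
    refine isConnected_of ⟨by simp, by simp⟩ (fun p hp t h0 h1 => ⟨hmono1 p t h0 h1 hp.1, ?_⟩)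
      (fun p hp t h0 h1 => ⟨hmono2 p t h0 h1 hp.1, ?_⟩)
    · rintro ⟨h2, h3⟩
      exact hp.2 ⟨h2, h3.trans (ht t p.1 h0 h1)⟩
    · rintro ⟨-, h3⟩
      simp at h3
      linarith
  have hωc : IsConnected ω := by
    refine isConnected_of ⟨by simp, by simp⟩ (fun p hp t h0 h1 => ⟨hmono1 p t h0 h1 hp.1, ?_⟩)
      (fun p hp t h0 h1 => ⟨hmono2 p t h0 h1 hp.1, by simp⟩)
    exact lt_of_le_of_lt (ht t p.1 h0 h1) hp.2
  have hb : ∀ p ∈ ω, ‖p.1‖ ≤ 1 ∧ ‖p.2‖ ≤ 1 := by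
    intro p hp
    refine ⟨hp.2.le, ?_⟩
    have h1 := hp.1
    have h2 : 0 ≤ ‖p.2‖ ^ 2 * ‖p.1‖ ^ 2 := by positivity
    have h3 : ‖p.2‖ ^ 2 < 1 := by nlinarith
    nlinarith [norm_nonneg p.2]
  have hbd : Bornology.IsBounded ω := by
    refine Metric.isBounded_closedBall.subset (t := Metric.closedBall (0 : ℂ × ℂ) 1) fun p hp => ?_
    rw [mem_closedBall_zero_iff, Prod.norm_def]
    exact max_le (hb p hp).1 (hb p hp).2
  -- the core of `Ω`
  have hcore : core Ω = {p | ‖p.1‖ < 1 ∧ p.2 = 0} := by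
    ext p
    constructor
    · rintro ⟨hp, hno⟩
      by_cases h : p.2 = 0
      · exact ⟨by by_contra hcon; exact hp.2 ⟨h, not_lt.1 hcon⟩, h⟩
      · exfalso
        refine hno ⟨_, ⟨contDiff_prod.contDiffOn, fun z _ ξ => ?_, ⟨1, ?_⟩⟩, fun ξ hξ => ?_⟩
        · rw [levi_prod]; positivity
        · rintro _ ⟨z, hz, rfl⟩
          exact hz.1.le
        · rw [levi_prod]
          by_cases h2 : ξ.2 = 0
          · have h1 : ξ.1 ≠ 0 := fun h1 => hξ (Prod.ext h1 h2)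
            have h3 : 0 < ‖p.2 * ξ.1‖ := norm_pos_iff.2 (mul_ne_zero h h1)
            rw [h2]
            simp only [mul_zero, add_zero, norm_zero]
            positivity
          · have h3 : 0 < ‖ξ.2‖ := norm_pos_iff.2 h2
            positivity
    · rintro ⟨h1, h2⟩
      have hp : p ∈ Ω := ⟨by rw [h2]; simp, fun h => absurd h.2 (not_le.2 h1)⟩
      refine ⟨hp, ?_⟩
      rintro ⟨φ, hφ, hpos⟩
      have hpe : p = (p.1, 0) := Prod.ext rfl h2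
      have key : levi φ (p.1, 0) (1, 0) ≤ 0 := by
        refine basic_levi hΩo hφ (hpe ▸ hp) fun R δ hδ => ?_
        set c : ℝ := min (δ / 2) (1 / (2 * (|R| + 2))) with hc
        have hR := abs_nonneg R
        have hc0 : 0 < c := lt_min (by linarith) (by positivity)
        have hcδ : c < δ := lt_of_le_of_lt (min_le_left _ _) (by linarith)
        have hcR : c * (2 * (|R| + 2)) ≤ 1 := by
          have := min_le_right (δ / 2) (1 / (2 * (|R| + 2)))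
          rwa [le_div_iff₀ (by positivity)] at this
        refine ⟨(c : ℂ), ?_, fun z hz => ⟨?_, ?_⟩⟩
        · rw [sub_zero, Complex.norm_real, Real.norm_of_nonneg hc0.le]
          exact hcδ
        · simp only
          rw [Complex.norm_real, Real.norm_of_nonneg hc0.le]
          have h3 : ‖z‖ ≤ |R| + 1 := by
            have h4 : ‖z‖ ≤ ‖z - p.1‖ + ‖p.1‖ := by simpa using norm_add_le (z - p.1) p.1
            have h5 := le_abs_self R
            linarith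
          have h6 : ‖z‖ ^ 2 ≤ (|R| + 1) ^ 2 := pow_le_pow_left₀ (norm_nonneg _) h3 2
          have h7 : c ^ 2 * (1 + ‖z‖ ^ 2) ≤ c ^ 2 * (1 + (|R| + 1) ^ 2) := by gcongr
          have h8 : (c * (2 * (|R| + 2))) ^ 2 ≤ 1 := by
            have h9 : 0 ≤ c * (2 * (|R| + 2)) := by positivity
            nlinarith
          have h10 : 0 < c ^ 2 := by positivity
          nlinarith
        · rintro ⟨h3, -⟩
          exact hc0.ne' (Complex.ofReal_eq_zero.1 h3)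
      rw [← hpe] at key
      exact absurd (hpos (1, 0) (fun h => one_ne_zero (congrArg Prod.fst h))) (not_lt.2 key)
  have hcω : core ω = ∅ := by
    rw [eq_empty_iff_forall_notMem]
    rintro p ⟨hp, hno⟩
    refine hno ⟨_, ⟨contDiff_sum.contDiffOn, fun z _ ξ => ?_, ⟨2, ?_⟩⟩, fun ξ hξ => ?_⟩
    · rw [levi_sum]; positivity
    · rintro _ ⟨z, hz, rfl⟩
      obtain ⟨h1, h2⟩ := hb z hz
      have h3 := norm_nonneg z.1
      have h4 := norm_nonneg z.2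
      show ‖z.1‖ ^ 2 + ‖z.2‖ ^ 2 ≤ 2
      nlinarith
    · rw [levi_sum]
      by_cases h2 : ξ.2 = 0
      · have h1 : 0 < ‖ξ.1‖ := norm_pos_iff.2 fun h1 => hξ (Prod.ext h1 h2)
        positivity
      · have h3 : 0 < ‖ξ.2‖ := norm_pos_iff.2 h2
        positivity
  refine ⟨Ω, ω, hΩo, hΩc, hωo, hωc, hbd, hsub, hcore, ?_, hcω, ?_⟩
  · rw [hcore]
    rintro p ⟨h1, h2⟩
    exact ⟨by rw [h2]; simp, h1⟩
  · rw [hcω, hcore]
    intro h
    have : ((0 : ℂ), (0 : ℂ)) ∈ (∅ : Set (ℂ × ℂ)) := by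
      rw [h]; exact ⟨by simp, rfl⟩
    exact this

end Pool.Agent.Results.MP_902c37_an.CoreNotLocal
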